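import Pool.Agent.Results.MP_53121e_ag.KeyPolynomialTowers
import Pool.Agent.Q299.TD.Reached

/-!
MP_53121e_ag: local uniformization, in arbitrary dimension, of all places of function fields in a
class which is closed under composition and under towers without defect.

Let `K / k` be an algebraic function field in any number of variables over an arbitrary field `k`,
and let `V` be a valuation ring of `K / k`, of arbitrary rank. Let `IsReached k` be the smallest
class of valuation rings `V` of fields `K` over `k` which contains

* the trivial valuations, the discrete valuations of arbitrary finite rank (more generally the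
  finite composites of discrete and divergent valuations), the divergent valuations, and the
  valuations which are log uniformizable on all `k`-algebras of finite type in `V` with fraction
  field `K` (by Cossart and Piltant all valuations if the transcendence degree of `K` is at most
  `3`);

and which is closed under

* composition: `V` is the composite of `V₁` and a valuation ring `W` of the residue field of `V₁`,
  the class contains `V₁` and `W ∩ F` for every field `F` in the residue field of `V₁` which is
  finitely generated over `k`;
* towers without defect: `K` is reached from a subfield `E`, finitely generated over `k`, by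
  finitely many steps of the following kinds, and the class contains `V ∩ E`: `L ⊂ L(t)` with `t`
  transcendental, such that the value of every polynomial in `t` is determined by a defectless key
  polynomial; finite extensions `L ⊂ L'` without defect.

Then `V` admits local uniformization: `K` has a projective model on which the centre of `V` is a
regular point. (The starting result `DiscretePlaces` has iterated composites of discrete and
divergent valuations only, and the starting result `KeyPolynomialTowers` has one tower over `k` or
over a base for which log uniformization is assumed.)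
-/

set_option autoImplicit false

universe u

namespace Pool.Agent.Results.MP_53121e_ag.CompositesAndTowers

open IsLocalRing Pool.Agent.W418.LU2 Pool.Agent.TH188.QS Pool.Agent.Q299.TD
open Pool.Agent.Results.MP_53121e_ag.KeyPolynomialTowers (IsUniformizable modelChart)

/-- Let `K` be an algebraic function field over the field `k`, and let `V` be a valuation ring of
`K / k` in the class `IsReached k`, that is, `V` is obtained from trivial, discrete, divergent, or
log uniformizable valuations by composition and by towers of transcendental steps without limit key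
polynomials and finite extensions without defect. Then `V` is uniformizable: the centre of `V` on
some projective model of `K / k` is a regular point. -/
theorem result (k K : Type u) [Field k] [Field K] [Algebra k K] [Algebra.EssFiniteType k K]
    (V : ValuationSubring K) (hkV : ∀ a : k, algebraMap k K a ∈ V)
    (hV : IsReached k (algebraMap k K) V) : IsUniformizable k V := by
  classical
  -- an affine model
  obtain ⟨S, hSf, hSV, hfrS⟩ : ∃ S : Set K, S.Finite ∧
      Subring.closure (((algebraMap k K).range : Set K) ∪ S) ≤ V.toSubring ∧
      (∀ z : K, ∃ a ∈ Subring.closure (((algebraMap k K).range : Set K) ∪ S),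
        ∃ b ∈ Subring.closure (((algebraMap k K).range : Set K) ∪ S), b ≠ 0 ∧ z = a / b) := by
    obtain ⟨σ, hσ⟩ := (Algebra.essFiniteType_iff (R := k) (S := K)).1 inferInstance
    let f : K → K := fun s => if s ∈ V then s else s⁻¹
    have hfV : ∀ s, f s ∈ V := by
      intro s
      by_cases hs : s ∈ V
      · simp only [f, if_pos hs]; exact hs
      · simp only [f, if_neg hs]; exact (V.mem_or_inv_mem s).resolve_left hs
    have hSV : Subring.closure (((algebraMap k K).range : Set K) ∪ (f '' (σ : Set K))) ≤
        V.toSubring := by
      rw [Subring.closure_le]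
      rintro z (⟨a, rfl⟩ | ⟨s, -, rfl⟩)
      · exact hkV a
      · exact hfV s
    set A := Subring.closure (((algebraMap k K).range : Set K) ∪ (f '' (σ : Set K))) with hA
    -- the fractions form a ring
    have hsub : ∀ x ∈ Algebra.adjoin k (σ : Set K), ∃ a ∈ A, ∃ b ∈ A, b ≠ 0 ∧ x = a / b := by
      intro x hx
      induction hx using Algebra.adjoin_induction with
      | mem s hs =>
        have h1 : f s ∈ A := Subring.subset_closure (Or.inr ⟨s, hs, rfl⟩)
        by_cases hsV : s ∈ V
        · simp only [f, if_pos hsV] at h1
          exact ⟨s, h1, 1, A.one_mem, one_ne_zero, (div_one s).symm⟩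
        · simp only [f, if_neg hsV] at h1
          have h0 : s ≠ 0 := fun h => hsV (h ▸ V.zero_mem)
          exact ⟨1, A.one_mem, s⁻¹, h1, inv_ne_zero h0, by rw [one_div, inv_inv]⟩
      | algebraMap r =>
        exact ⟨_, Subring.subset_closure (Or.inl ⟨r, rfl⟩), 1, A.one_mem, one_ne_zero,
          (div_one _).symm⟩
      | add x y hx hy h1 h2 =>
        obtain ⟨a, ha, b, hb, hb0, rfl⟩ := h1
        obtain ⟨c, hc, d, hd, hd0, rfl⟩ := h2
        exact ⟨a * d + b * c, A.add_mem (A.mul_mem ha hd) (A.mul_mem hb hc), b * d,
          A.mul_mem hb hd, mul_ne_zero hb0 hd0, div_add_div _ _ hb0 hd0⟩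
      | mul x y hx hy h1 h2 =>
        obtain ⟨a, ha, b, hb, hb0, rfl⟩ := h1
        obtain ⟨c, hc, d, hd, hd0, rfl⟩ := h2
        exact ⟨a * c, A.mul_mem ha hc, b * d, A.mul_mem hb hd, mul_ne_zero hb0 hd0,
          div_mul_div_comm _ _ _ _⟩
    refine ⟨f '' (σ : Set K), σ.finite_toSet.image _, hSV, ?_⟩
    intro z
    obtain ⟨t, ht, htu, hzt⟩ := hσ z
    obtain ⟨a, ha, b, hb, hb0, h1⟩ := hsub _ ht
    obtain ⟨c, hc, d, hd, hd0, h2⟩ := hsub _ hzt
    have ht0 : t ≠ 0 := htu.ne_zero
    have ha0 : a ≠ 0 := by
      rintro rfl
      exact ht0 (by rw [h1, zero_div])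
    refine ⟨c * b, A.mul_mem hc hb, d * a, A.mul_mem hd ha, mul_ne_zero hd0 ha0, ?_⟩
    rw [eq_div_iff (mul_ne_zero hd0 ha0)]
    rw [h1] at h2
    field_simp at h2
    linear_combination h2
  set A : Subring K := Subring.closure (((algebraMap k K).range : Set K) ∪ S) with hA
  have hAK : ∀ z : K, ∃ a ∈ A, ∃ b ∈ A, b ≠ 0 ∧ z = a * b⁻¹ := by
    intro z
    obtain ⟨a, ha, b, hb, hb0, hz⟩ := hfrS z
    exact ⟨a, ha, b, hb, hb0, by rw [hz, div_eq_mul_inv]⟩
  -- strong uniformization of the affine model
  have hAN : IsNoetherianRing A := noe hj_field (algebraMap k K) hSf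
  have hSU : Pool.Agent.H176.DT.SU V A :=
    su_of_gp ⟨hSV, hAK⟩ (allGP_of_isReached hj_field (algebraMap k K) V hV S hSf ⟨hSV, hAK⟩)
  obtain ⟨T', hT'f, hT'V, hreg, -⟩ := Pool.Agent.H176.DT.emb_LU V A hSV hSU ∅ Set.finite_empty
    (by simp)
  have hT'V' : T' ⊆ V := fun z hz => hT'V (Subring.subset_closure (Or.inr hz))
  -- homogeneous coordinates
  obtain ⟨N, t, ht⟩ := exists_fin_range (hSf.union hT'f)
  let H : Fin (N + 1) → K := Fin.cons 1 t
  have hH0 : H 0 = 1 := rfl
  have hHs : ∀ i : Fin N, H i.succ = t i := fun i => rfl
  have hHr : Set.range (fun l => H l / H 0) = insert 1 (S ∪ T') := by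
    rw [← ht]
    ext z
    simp only [hH0, div_one]
    constructor
    · rintro ⟨l, rfl⟩
      induction l using Fin.cases with
      | zero => exact Or.inl rfl
      | succ i => exact Or.inr ⟨i, rfl⟩
    · rintro (rfl | ⟨i, rfl⟩)
      · exact ⟨0, rfl⟩
      · exact ⟨i.succ, rfl⟩
  have hcl : Subring.closure ((((algebraMap k K).range : Subring K) : Set K) ∪
      insert 1 (S ∪ T')) = Subring.closure ((A : Set K) ∪ T') := by
    apply le_antisymm
    · rw [Subring.closure_le]
      rintro z (hz | rfl | hz | hz)
      · exact Subring.subset_closure (Or.inl (Subring.subset_closure (Or.inl hz)))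
      · exact Subring.one_mem _
      · exact Subring.subset_closure (Or.inl (Subring.subset_closure (Or.inr hz)))
      · exact Subring.subset_closure (Or.inr hz)
    · rw [Subring.closure_le]
      rintro z (hz | hz)
      · refine (Subring.closure_mono ?_) hz
        rintro w (hw | hw)
        · exact Or.inl hw
        · exact Or.inr (Or.inr (Or.inl hw))
      · exact Subring.subset_closure (Or.inr (Or.inr (Or.inr hz)))
  have hVcl : Subring.closure ((((algebraMap k K).range : Subring K) : Set K) ∪
      insert 1 (S ∪ T')) ≤ V.toSubring := by
    rw [hcl]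
    exact hT'V
  have hch : (modelChart k H 0).toSubring = Subring.closure ((A : Set K) ∪ T') := by
    unfold modelChart
    rw [adjoin_toSubring, hHr, hcl]
  obtain ⟨h3, P, hP, h4, h5⟩ := regular_centre (R := k) (T := Set.range fun l => H l / H 0)
    (V := V) (by rw [hHr]; exact hVcl) (by rw [hHr, hcl]; exact hreg)
  refine ⟨N + 1, H, 0, by rw [hH0]; exact one_ne_zero, ?_, ?_, P, hP, h4, h5⟩
  · intro l
    exact h3 ⟨H l / H 0, Algebra.subset_adjoin ⟨l, rfl⟩⟩
  · intro z
    obtain ⟨a, ha, b, hb, hb0, hz⟩ := hfrS z
    have hle : A ≤ (modelChart k H 0).toSubring := by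
      rw [hch]
      exact fun x hx => Subring.subset_closure (Or.inl hx)
    exact ⟨a, hle ha, b, hle hb, hb0, hz⟩

end Pool.Agent.Results.MP_53121e_ag.CompositesAndTowers
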